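import Pool.Agent.N901.EC.BD

/-!
Project CP (helper102): stages of function fields of bounded degree, with finite generation.
-/

set_option autoImplicit false

universe u

namespace Pool.Agent.N102.CP

open Pool.Agent.N98.RW Pool.Agent.N98 Pool.Agent.H176.DT Pool.Agent.N901.EC

/-- Stages of function fields of bounded degree with a valuation. -/
theorem t_bdf {E K : Type u} [Field E] [Field K] [Algebra E K] [Infinite E] (N r δ : ℕ)
    (x : Fin N → K) (htop : IntermediateField.adjoin E (Set.range x) = ⊤)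
    (htr : Algebra.trdeg E K = r) (C0 : ℕ)
    (hδ : ∀ t : ℕ, r.factorial * Module.finrank E (img E x t) ≤ δ * (t + C0) ^ r)
    (V : ValuationSubring K)
    (hp : ∀ q : ℕ, q.Prime → q ≤ δ ^ 2 ^ r → V.valuation (q : K) = 1)
    (R : Subring E) (hfr : ∀ w : E, ∃ a ∈ R, ∃ b ∈ R, b ≠ 0 ∧ w = a * b⁻¹)
    (hRV : ∀ a ∈ R, algebraMap E K a ∈ V)
    (hR : HasF (AdlS (V.comap (algebraMap E K)) R)
      ({V.comap (algebraMap E K)} : Set (ValuationSubring E))) :
    ∃ (A : Subring K) (G T : Set K) (n : ℕ) (X : Fin n → K), G.Finite ∧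
      A = Subring.closure ((R.map (algebraMap E K) : Set K) ∪ G) ∧ St V A T X ∧
      (∀ a ∈ R, algebraMap E K a ∈ A) ∧ ∀ w : K, ∃ a ∈ A, ∃ b ∈ A, b ≠ 0 ∧ w = a * b⁻¹ := by
  classical
  let g : Fin N → K := fun j => if x j ∈ V then x j else (x j)⁻¹
  set A : Subring K := Subring.closure ((R.map (algebraMap E K) : Set K) ∪ Set.range g) with hA
  have hRA : ∀ a ∈ R, algebraMap E K a ∈ A := fun a ha =>
    Subring.subset_closure (Or.inl ⟨a, ha, rfl⟩)
  have hgA : ∀ j, g j ∈ A := fun j => Subring.subset_closure (Or.inr ⟨j, rfl⟩)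
  have hgm : ∀ j, LProd (E := E) x (g j) := by
    intro j
    by_cases hj : x j ∈ V
    · have h1 : g j = x j ^ (1 : ℤ) := by rw [zpow_one]; exact if_pos hj
      rw [h1]
      exact lprod_zpow x j 1
    · have h1 : g j = x j ^ (-1 : ℤ) := by rw [zpow_neg_one]; exact if_neg hj
      rw [h1]
      exact lprod_zpow x j (-1)
  have hAV : A ≤ V.toSubring := by
    rw [hA, Subring.closure_le]
    rintro z (⟨a, ha, rfl⟩ | ⟨j, rfl⟩)
    · exact hRV a ha
    · by_cases hj : x j ∈ V
      · have h1 : g j = x j := if_pos hj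
        rw [h1]
        exact hj
      · have h1 : g j = (x j)⁻¹ := if_neg hj
        rw [h1]
        exact (V.mem_or_inv_mem (x j)).resolve_left hj
  have hden : ∀ j, ∃ b ∈ A, b ≠ 0 ∧ LProd (E := E) x b ∧ b * x j ∈ A := by
    intro j
    by_cases hj : x j ∈ V
    · have h1 : g j = x j := if_pos hj
      refine ⟨1, A.one_mem, one_ne_zero, ?_, ?_⟩
      · exact ⟨0, Fin.elim0, Fin.elim0, Fin.elim0, by simp⟩
      · rw [one_mul, ← h1]
        exact hgA j
    · have h1 : g j = (x j)⁻¹ := if_neg hj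
      have h0 : x j ≠ 0 := fun h => hj (by rw [h]; exact V.zero_mem)
      refine ⟨g j, hgA j, ?_, hgm j, ?_⟩
      · rw [h1]
        exact inv_ne_zero h0
      · rw [h1, inv_mul_cancel₀ h0]
        exact A.one_mem
  obtain ⟨T, n, X, hSt, -⟩ := Pool.Agent.N98.SS.exists_stage (E := E) x htop htr C0 hδ V hp R hfr hR
    (R.map (algebraMap E K)) (Set.range g) (Set.finite_range g)
    (by rintro _ ⟨j, rfl⟩; exact hgm j) A hAV hA ∅ Set.finite_empty
    (by rw [Set.union_empty, Subring.closure_eq]) (by intro u hu; exact absurd hu (Set.notMem_empty u))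
    hden ∅ Set.finite_empty (by intro u hu; exact absurd hu (Set.notMem_empty u))
  refine ⟨A, Set.range g, T, n, X, Set.finite_range g, hA, hSt, hRA, frac_all x htop A ?_ ?_⟩
  · intro w
    obtain ⟨a, ha, b, hb, hb0, rfl⟩ := hfr w
    refine ⟨algebraMap E K a, hRA a ha, algebraMap E K b, hRA b hb, ?_, by rw [map_mul, map_inv₀]⟩
    exact fun h => hb0 ((algebraMap E K).injective (by rw [h, map_zero]))
  · intro j
    obtain ⟨b, hb, hb0, -, hbx⟩ := hden j
    refine ⟨b * x j, hbx, b, hb, hb0, ?_⟩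
    field_simp

end Pool.Agent.N102.CP
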