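import Pool.Agent.N102.CP.Loc
import Pool.Agent.N102.CP.BDF
import Pool.Agent.N102.EC.Sys

/-!
Project CP (helper102): existential closedness of complete fields from a stage.
-/

set_option autoImplicit false
set_option linter.unusedVariables false
set_option linter.unusedSectionVars false

universe u

open IsLocalRing MvPolynomial Pool.Agent.N102.EC Pool.Agent.W418.LU2 Pool.Agent.H176.DT

namespace Pool.Agent.N102.CP

lemma val_aeval {K F : Type u} [Field K] [Field F] [Algebra K F] (V : ValuationSubring F)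
    (hKV : ∀ c : K, algebraMap K F c ∈ V) {m : ℕ} (a : Fin m → F)
    (ha : ∀ i, V.valuation (a i) < 1) (g : MvPolynomial (Fin m) K) :
    aeval a g ∈ V ∧ V.valuation (aeval a g - algebraMap K F (constantCoeff g)) < 1 := by
  induction g using MvPolynomial.induction_on with
  | C c =>
    rw [aeval_C, constantCoeff_C, sub_self, map_zero]
    exact ⟨hKV c, zero_lt_one⟩
  | add p q hp hq =>
    rw [map_add, map_add, map_add, add_sub_add_comm]
    exact ⟨add_mem hp.1 hq.1, V.valuation.map_add_lt hp.2 hq.2⟩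
  | mul_X p i hp =>
    have h1 : a i ∈ V := (V.valuation_le_one_iff _).1 (ha i).le
    rw [map_mul, aeval_X, map_mul, constantCoeff_X, mul_zero, map_zero, sub_zero, map_mul]
    refine ⟨mul_mem hp.1 h1, ?_⟩
    have h2 : V.valuation (aeval a p) ≤ 1 := (V.valuation_le_one_iff _).2 hp.1
    calc V.valuation (aeval a p) * V.valuation (a i) ≤ 1 * V.valuation (a i) :=
          mul_le_mul_left h2 _
      _ < 1 := by rw [one_mul]; exact ha i

/-- Existential closedness of complete fields from a stage. -/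
theorem ec_stage (hfix : S_FIX.{u}) (halg : S_ALG.{u}) (h1 : S_DVR.{u}) (h2 : S_QUOT.{u})
    {O K F : Type u} [CommRing O] [IsDomain O] [IsDiscreteValuationRing O]
    [IsAdicComplete (maximalIdeal O) O] [Field K] [Algebra O K] [IsFractionRing O K] [Field F]
    [Algebra K F] (V : ValuationSubring F) (hKV : ∀ c : K, algebraMap K F c ∈ V)
    (hV : ∀ a ∈ V, ∃ c : K, V.valuation (a - algebraMap K F c) < 1)
    (A : Subring F) (G T : Set F) {n : ℕ} (X : Fin n → F) (hG : G.Finite)
    (hA : A = Subring.closure (((⊤ : Subring K).map (algebraMap K F) : Set F) ∪ G))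
    (hSt : St V A T X) (hKA : ∀ c ∈ (⊤ : Subring K), algebraMap K F c ∈ A)
    (hfr : ∀ w : F, ∃ a ∈ A, ∃ b ∈ A, b ≠ 0 ∧ w = a * b⁻¹) :
    ExClosed K F := by
  classical
  have hreg : RegP V.toSubring (PP V A T) X := hSt.reg
  have hAP : A ≤ PP V A T := fun a ha => le_lo _ _ (Subring.subset_closure (Or.inl ha))
  have hTP : T ⊆ PP V A T := fun a ha => le_lo _ _ (Subring.subset_closure (Or.inr ha))
  have hGP : G ⊆ PP V A T := fun a ha => hAP (by
    rw [hA]
    exact Subring.subset_closure (Or.inr ha))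
  have hKP : ∀ c : K, algebraMap K F c ∈ PP V A T := fun c => hAP (hKA c trivial)
  obtain ⟨m, w, -, hw⟩ := (hG.union hSt.fin).fin_param
  have hwP : ∀ i, w i ∈ PP V A T := by
    intro i
    have h3 : w i ∈ G ∪ T := hw ▸ Set.mem_range_self i
    rcases h3 with h | h
    · exact hGP h
    · exact hTP h
  choose c hc using fun i => hV (w i) (hreg.PA (hwP i))
  let a : Fin m → PP V A T := fun i => ⟨w i - algebraMap K F (c i), sub_mem (hwP i) (hKP _)⟩
  have hav : ∀ i, V.valuation ((a i : PP V A T) : F) < 1 := hc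
  have hR := hreg.reg
  have hgen : ∀ z ∈ Subring.closure ((A : Set F) ∪ T), ∃ g : MvPolynomial (Fin m) K,
      aeval (fun i => (a i : F)) g = z := by
    have hWr : ∀ z ∈ G ∪ T, z ∈ (aeval (fun i => (a i : F)) :
        MvPolynomial (Fin m) K →ₐ[K] F).range.toSubring := by
      intro z hz
      rw [← hw] at hz
      obtain ⟨i, rfl⟩ := hz
      refine ⟨MvPolynomial.X i + MvPolynomial.C (c i), ?_⟩
      change aeval (fun i => (a i : F)) _ = _
      rw [map_add, aeval_X, aeval_C]
      change w i - algebraMap K F (c i) + _ = _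
      ring
    have hle : Subring.closure ((A : Set F) ∪ T) ≤ (aeval (fun i => (a i : F)) :
        MvPolynomial (Fin m) K →ₐ[K] F).range.toSubring := by
      rw [Subring.closure_le, Set.union_subset_iff]
      refine ⟨?_, fun z hz => hWr z (Or.inr hz)⟩
      change A ≤ _
      refine hA.le.trans ?_
      rw [Subring.closure_le, Set.union_subset_iff]
      refine ⟨?_, fun z hz => hWr z (Or.inl hz)⟩
      rintro _ ⟨b, -, rfl⟩
      exact (aeval (fun i => (a i : F)) : MvPolynomial (Fin m) K →ₐ[K] F).range.algebraMap_mem b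
    intro z hz
    exact hle hz
  refine ec_local hfix halg h1 h2 (O := O) (PP V A T) hreg.reg hKP (fun z => ?_) (fun z => ?_) m a
    (fun i => ?_) fun z => ?_
  · obtain ⟨a, ha, b, hb, h⟩ := hfr z
    exact ⟨a, hAP ha, b, hAP hb, h⟩
  · obtain ⟨c, hc⟩ := hV z (hreg.PA z.2)
    refine ⟨c, ?_⟩
    rw [hreg.mem_max]
    exact nonunit_of_lt V hc
  · rw [hreg.mem_max]
    exact nonunit_of_lt V (hav i)
  · obtain ⟨z, p, hp, q, hq, hq0, hqV, hz⟩ := z
    obtain ⟨u, rfl⟩ := hgen p hp
    obtain ⟨v, rfl⟩ := hgen q hq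
    refine ⟨u, v, fun h0 => ?_, ?_⟩
    · have h3 := (val_aeval V hKV (fun i => (a i : F)) hav v).2
      rw [h0, map_zero, sub_zero] at h3
      exact nonunit_of_lt V h3 ⟨hq0, hqV⟩
    · change _ * z = _
      rw [hz, mul_left_comm, mul_inv_cancel₀ hq0, mul_one]

end Pool.Agent.N102.CP
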