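import Mathlib

/-!
Project CP (helper102): compactness. If all finite families of elements of a field `F` have points
modulo all powers of the maximal ideal of a complete discrete valuation ring `O` with finite
residue field, then `F` has a valuation ring with a homomorphism to `O`.
-/

set_option autoImplicit false
set_option linter.unusedVariables false
set_option linter.unusedSectionVars false

universe u

open IsLocalRing Filter

namespace Pool.Agent.N102.CP

variable {O F : Type u} [CommRing O] [IsDomain O] [IsDiscreteValuationRing O] [Field F]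
  [Algebra O F]

/-- The ring of a chart. -/
def chart (O : Type u) {F : Type u} [CommRing O] [Field F] [Algebra O F] {s : ℕ}
    (f : Fin s → F) (ε : Fin s → ℤˣ) : Subring F :=
  Subring.closure (Set.range (algebraMap O F) ∪ Set.range fun j => f j ^ (ε j : ℤ))

/-- A point modulo a power of the maximal ideal. -/
def HasPoint (O : Type u) {F : Type u} [CommRing O] [IsLocalRing O] [Field F] [Algebra O F]
    {s : ℕ} (f : Fin s → F) (n : ℕ) : Prop :=
  ∃ (ε : Fin s → ℤˣ) (φ : chart O f ε →+* O ⧸ maximalIdeal O ^ n),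
    ∀ (a : O) (h : algebraMap O F a ∈ chart O f ε), φ ⟨algebraMap O F a, h⟩ =
      Ideal.Quotient.mk _ a

section limit

variable {D : Type u} (U : Ultrafilter D) (n : D → ℕ) (C : D → Subring F)
  (φ : ∀ d, C d →+* O ⧸ maximalIdeal O ^ n d)

/-- The limit of the values. -/
def Lim (M : ℕ) (x : F) (c : O ⧸ maximalIdeal O ^ M) : Prop :=
  ∀ᶠ d in (U : Filter D), ∃ (h : x ∈ C d) (hM : M ≤ n d),
    Ideal.Quotient.factor (Ideal.pow_le_pow_right hM) (φ d ⟨x, h⟩) = c

lemma lim_unique {M : ℕ} {x : F} {c c' : O ⧸ maximalIdeal O ^ M} (h : Lim U n C φ M x c)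
    (h' : Lim U n C φ M x c') : c = c' := by
  obtain ⟨d, ⟨h1, h2, h3⟩, ⟨h1', h2', h3'⟩⟩ := (h.and h').exists
  rw [← h3, ← h3']

lemma lim_exists [Finite (ResidueField O)] (hn : ∀ M, ∀ᶠ d in (U : Filter D), M ≤ n d) (M : ℕ)
    {x : F} (hx : ∀ᶠ d in (U : Filter D), x ∈ C d) : ∃ c, Lim U n C φ M x c := by
  classical
  have hfin : Finite (O ⧸ maximalIdeal O ^ M) :=
    IsLocalRing.finite_quotient_iff.2 ⟨M, le_rfl⟩
  let g : D → O ⧸ maximalIdeal O ^ M := fun d =>
    if h : x ∈ C d ∧ M ≤ n d then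
      Ideal.Quotient.factor (Ideal.pow_le_pow_right h.2) (φ d ⟨x, h.1⟩) else 0
  obtain ⟨c, hc⟩ := (U.map g).eq_pure_of_finite
  refine ⟨c, ?_⟩
  have h1 : ∀ᶠ d in (U : Filter D), g d = c := by
    have h2 : {c} ∈ U.map g := by
      rw [hc]
      exact rfl
    exact h2
  filter_upwards [h1, hx, hn M] with d h2 h3 h4
  refine ⟨h3, h4, ?_⟩
  rw [← h2]
  change _ = dite _ _ _
  rw [dif_pos ⟨h3, h4⟩]

lemma lim_add {M : ℕ} {x y : F} {c c' : O ⧸ maximalIdeal O ^ M} (h : Lim U n C φ M x c)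
    (h' : Lim U n C φ M y c') : Lim U n C φ M (x + y) (c + c') := by
  filter_upwards [h, h'] with d ⟨h1, h2, h3⟩ ⟨h1', h2', h3'⟩
  refine ⟨add_mem h1 h1', h2, ?_⟩
  rw [← h3, ← h3', ← map_add, ← map_add]
  rfl

lemma lim_mul {M : ℕ} {x y : F} {c c' : O ⧸ maximalIdeal O ^ M} (h : Lim U n C φ M x c)
    (h' : Lim U n C φ M y c') : Lim U n C φ M (x * y) (c * c') := by
  filter_upwards [h, h'] with d ⟨h1, h2, h3⟩ ⟨h1', h2', h3'⟩
  refine ⟨mul_mem h1 h1', h2, ?_⟩
  rw [← h3, ← h3', ← map_mul, ← map_mul]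
  rfl

lemma lim_const (hn : ∀ M, ∀ᶠ d in (U : Filter D), M ≤ n d)
    (hC : ∀ d (a : O), algebraMap O F a ∈ C d)
    (hφ : ∀ d (a : O) (h : algebraMap O F a ∈ C d), φ d ⟨algebraMap O F a, h⟩ =
      Ideal.Quotient.mk _ a) (M : ℕ) (a : O) :
    Lim U n C φ M (algebraMap O F a) (Ideal.Quotient.mk _ a) := by
  filter_upwards [hn M] with d h1
  refine ⟨hC d a, h1, ?_⟩
  rw [hφ, Ideal.Quotient.factor_mk]

lemma lim_factor {M M' : ℕ} (hMM : M' ≤ M) {x : F} {c : O ⧸ maximalIdeal O ^ M}
    (h : Lim U n C φ M x c) :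
    Lim U n C φ M' x (Ideal.Quotient.factor (Ideal.pow_le_pow_right hMM) c) := by
  filter_upwards [h] with d ⟨h1, h2, h3⟩
  refine ⟨h1, hMM.trans h2, ?_⟩
  rw [← h3]
  obtain ⟨y, hy⟩ := Ideal.Quotient.mk_surjective (φ d ⟨x, h1⟩)
  rw [← hy]
  rfl

theorem exists_limit [Finite (ResidueField O)] [IsAdicComplete (maximalIdeal O) O]
    (hn : ∀ M, ∀ᶠ d in (U : Filter D), M ≤ n d)
    (hC : ∀ d (a : O), algebraMap O F a ∈ C d)
    (hφ : ∀ d (a : O) (h : algebraMap O F a ∈ C d), φ d ⟨algebraMap O F a, h⟩ =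
      Ideal.Quotient.mk _ a)
    (hx : ∀ x : F, x ≠ 0 → ∀ᶠ d in (U : Filter D), x ∈ C d ∨ x⁻¹ ∈ C d) :
    ∃ (B : Subring F) (Φ : B →+* O),
      (∀ a : O, ∃ h : algebraMap O F a ∈ B, Φ ⟨_, h⟩ = a) ∧ ∀ x : F, x ∈ B ∨ x⁻¹ ∈ B := by
  classical
  let B : Subring F :=
    { carrier := {x | ∀ᶠ d in (U : Filter D), x ∈ C d}
      mul_mem' := fun {a b} ha hb => by
        filter_upwards [ha, hb] with d h1 h2
        exact mul_mem h1 h2
      one_mem' := Eventually.of_forall fun d => one_mem _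
      add_mem' := fun {a b} ha hb => by
        filter_upwards [ha, hb] with d h1 h2
        exact add_mem h1 h2
      zero_mem' := Eventually.of_forall fun d => zero_mem _
      neg_mem' := fun {a} ha => by
        filter_upwards [ha] with d h1
        exact neg_mem h1 }
  choose c hc using fun (M : ℕ) (x : B) => lim_exists U n C φ hn M (x := (x : F)) x.2
  let g : (M : ℕ) → B →+* O ⧸ maximalIdeal O ^ M := fun M =>
    { toFun := c M
      map_one' := by
        refine lim_unique U n C φ (hc M 1) ?_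
        have h := lim_const U n C φ hn hC hφ M 1
        rw [map_one, map_one] at h
        exact h
      map_mul' := fun x y => lim_unique U n C φ (hc M (x * y))
        (lim_mul U n C φ (hc M x) (hc M y))
      map_zero' := by
        refine lim_unique U n C φ (hc M 0) ?_
        have h := lim_const U n C φ hn hC hφ M 0
        rw [map_zero, map_zero] at h
        exact h
      map_add' := fun x y => lim_unique U n C φ (hc M (x + y))
        (lim_add U n C φ (hc M x) (hc M y)) }
  have hg : ∀ {m M : ℕ} (hle : m ≤ M),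
      (Ideal.Quotient.factorPow (maximalIdeal O) hle).comp (g M) = g m := by
    intro m M hle
    ext x
    exact lim_unique U n C φ (lim_factor U n C φ hle (hc M x)) (hc m x)
  refine ⟨B, IsAdicComplete.liftRingHom (maximalIdeal O) g hg, fun a => ?_, fun x => ?_⟩
  · have ha : algebraMap O F a ∈ B := Eventually.of_forall fun d => hC d a
    refine ⟨ha, ?_⟩
    refine IsHausdorff.eq_iff_smodEq (I := maximalIdeal O) |>.2 fun M => ?_
    have h1 : Ideal.Quotient.mk (maximalIdeal O ^ M)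
        (IsAdicComplete.liftRingHom (maximalIdeal O) g hg ⟨_, ha⟩) =
        Ideal.Quotient.mk (maximalIdeal O ^ M) a := by
      rw [IsAdicComplete.mk_liftRingHom]
      exact lim_unique U n C φ (hc M _) (lim_const U n C φ hn hC hφ M a)
    rw [SModEq.sub_mem, smul_eq_mul, Ideal.mul_top]
    exact Ideal.Quotient.eq.1 h1
  · by_cases h0 : x = 0
    · exact Or.inl (h0 ▸ zero_mem B)
    · exact Ultrafilter.eventually_or.1 (hx x h0)

end limit

/-- **Compactness.** -/
theorem exists_place [Finite (ResidueField O)] [IsAdicComplete (maximalIdeal O) O]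
    (H : ∀ (s : ℕ) (f : Fin s → F), (∀ j, f j ≠ 0) → ∀ n, HasPoint O f n) :
    ∃ (B : Subring F) (Φ : B →+* O),
      (∀ a : O, ∃ h : algebraMap O F a ∈ B, Φ ⟨_, h⟩ = a) ∧ ∀ x : F, x ∈ B ∨ x⁻¹ ∈ B := by
  classical
  let D := Finset {x : F // x ≠ 0} × ℕ
  let f : ∀ d : D, Fin d.1.card → F := fun d j => ((d.1.equivFin.symm j : {x : F // x ≠ 0}) : F)
  choose ε φ hφ using fun d : D => H d.1.card (f d) (fun j => (d.1.equivFin.symm j).1.2) d.2
  let U : Ultrafilter D := Ultrafilter.of atTop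
  have hU : (U : Filter D) ≤ atTop := Ultrafilter.of_le _
  refine exists_limit U (fun d => d.2) (fun d => chart O (f d) (ε d)) φ (fun M => ?_)
    (fun d a => Subring.subset_closure (Or.inl ⟨a, rfl⟩)) hφ (fun x hx => ?_)
  · refine hU ?_
    filter_upwards [eventually_ge_atTop ((∅, M) : D)] with d hd
    exact hd.2
  · refine hU ?_
    filter_upwards [eventually_ge_atTop (({⟨x, hx⟩}, 0) : D)] with d hd
    have h1 : (⟨x, hx⟩ : {x : F // x ≠ 0}) ∈ d.1 := hd.1 (Finset.mem_singleton_self _)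
    have h2 : f d (d.1.equivFin ⟨_, h1⟩) = x := by
      change ((d.1.equivFin.symm (d.1.equivFin ⟨_, h1⟩) : {x : F // x ≠ 0}) : F) = x
      rw [Equiv.symm_apply_apply]
    have h3 : f d (d.1.equivFin ⟨_, h1⟩) ^ ((ε d (d.1.equivFin ⟨_, h1⟩) : ℤˣ) : ℤ) ∈
        chart O (f d) (ε d) := Subring.subset_closure (Or.inr ⟨_, rfl⟩)
    rw [h2] at h3
    rcases Int.units_eq_one_or (ε d (d.1.equivFin ⟨_, h1⟩)) with h4 | h4
    · left
      rw [h4, Units.val_one, zpow_one] at h3
      exact h3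
    · right
      rw [h4, Units.val_neg, Units.val_one, zpow_neg_one] at h3
      exact h3

end Pool.Agent.N102.CP
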