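import Pool.Agent.N102.CP.Stm
import Pool.Agent.N102.EC.Main

/-!
Project CP (helper102): existential closedness of complete fields from a regular point.
-/

set_option autoImplicit false
set_option linter.unusedVariables false
set_option linter.unusedSectionVars false

universe u

open IsLocalRing MvPolynomial Pool.Agent.N102.EC

namespace Pool.Agent.N102.CP

/-- Clearing denominators. -/
lemma exists_clear {K F : Type u} [Field K] [Field F] [Algebra K F] {m n : ℕ} (a : Fin m → F)
    (a0 : Fin n → F) (nu q : Fin n → MvPolynomial (Fin m) K) (hq : ∀ i, aeval a (q i) ≠ 0)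
    (hn : ∀ i, a0 i * aeval a (q i) = aeval a (nu i)) (f : MvPolynomial (Fin n) K)
    (hf : aeval a0 f = 0) :
    ∃ G : MvPolynomial (Fin m) K, aeval a G = 0 ∧ ∀ b : Fin m → K, (∀ i, aeval b (q i) ≠ 0) →
      aeval b G = 0 → aeval (fun i => aeval b (nu i) / aeval b (q i)) f = 0 := by
  classical
  let Q : MvPolynomial (Fin m) K := ∏ i, q i
  let L := Localization.Away Q
  have hqu : ∀ i, IsUnit (algebraMap (MvPolynomial (Fin m) K) L (q i)) := by
    intro i
    have h1 : IsUnit (algebraMap (MvPolynomial (Fin m) K) L Q) :=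
      IsLocalization.Away.algebraMap_isUnit Q
    have h2 : q i ∣ Q := Finset.dvd_prod_of_mem q (Finset.mem_univ i)
    exact isUnit_of_dvd_unit (map_dvd _ h2) h1
  let w : Fin n → L := fun i => algebraMap _ L (nu i) * ((hqu i).unit⁻¹ : Lˣ)
  have hw : ∀ i, w i * algebraMap (MvPolynomial (Fin m) K) L (q i) =
      algebraMap (MvPolynomial (Fin m) K) L (nu i) := by
    intro i
    change algebraMap _ L (nu i) * ((hqu i).unit⁻¹ : Lˣ) * algebraMap _ L (q i) = _
    rw [mul_assoc, IsUnit.val_inv_mul, mul_one]
  obtain ⟨k, G, hG⟩ := IsLocalization.Away.surj Q (aeval w f : L)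
  have key : ∀ (R : Type u) (_ : Field R) (_ : Algebra K R) (c : Fin m → R)
      (_ : ∀ i, aeval c (q i) ≠ 0),
      aeval (fun i => aeval c (nu i) / aeval c (q i)) f * aeval c Q ^ k = aeval c G := by
    intro R _ _ c hc
    have hQ : IsUnit ((aeval c : MvPolynomial (Fin m) K →ₐ[K] R) Q) := by
      rw [isUnit_iff_ne_zero, map_prod]
      exact Finset.prod_ne_zero_iff.2 fun i _ => hc i
    let E : L →ₐ[K] R := IsLocalization.liftAlgHom (M := Submonoid.powers Q)
      (f := (aeval c : MvPolynomial (Fin m) K →ₐ[K] R)) (by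
        rintro ⟨_, l, rfl⟩
        rw [map_pow]
        exact hQ.pow l)
    have hE : ∀ g, E (algebraMap _ L g) = aeval c g := fun g => by
      exact IsLocalization.lift_eq _ g
    have h1 := congrArg E hG
    rw [map_mul, map_pow, hE, hE, comp_aeval_apply] at h1
    rw [← h1]
    congr 2
    refine congrArg (fun s : Fin n → R => (aeval s : MvPolynomial (Fin n) K →ₐ[K] R)) ?_
    funext i
    rw [div_eq_iff (hc i), ← hE, ← hE, ← map_mul, hw]
  refine ⟨G, ?_, fun b hb hGb => ?_⟩
  · rw [← key F _ _ a hq]
    have h1 : (fun i => aeval a (nu i) / aeval a (q i)) = a0 := by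
      funext i
      rw [← hn, mul_div_cancel_right₀ _ (hq i)]
    rw [h1, hf, zero_mul]
  · have h1 := key K _ _ b hb
    rw [hGb] at h1
    refine (mul_eq_zero.1 h1).resolve_right (pow_ne_zero _ ?_)
    rw [map_prod]
    exact Finset.prod_ne_zero_iff.2 fun i _ => hb i

/-- Existential closedness of complete fields from a regular point of a model. -/
theorem ec_local (hfix : S_FIX.{u}) (halg : S_ALG.{u}) (h1 : S_DVR.{u}) (h2 : S_QUOT.{u})
    {O K F : Type u} [CommRing O] [IsDomain O] [IsDiscreteValuationRing O]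
    [IsAdicComplete (maximalIdeal O) O] [Field K] [Algebra O K] [IsFractionRing O K] [Field F]
    [Algebra K F] (P : Subring F) (hreg : IsRegularLocalRing P)
    (hKP : ∀ c : K, algebraMap K F c ∈ P)
    (hfr : ∀ w : F, ∃ a ∈ P, ∃ b ∈ P, b ≠ 0 ∧ w = a * b⁻¹)
    (hres : ∀ a : P, ∃ c : K, a - ⟨algebraMap K F c, hKP c⟩ ∈ maximalIdeal P)
    (m : ℕ) (a : Fin m → P) (ham : ∀ i, a i ∈ maximalIdeal P)
    (hgen : ∀ x : P, ∃ u v : MvPolynomial (Fin m) K, constantCoeff v ≠ 0 ∧
      aeval (fun i => (a i : F)) v * x = aeval (fun i => (a i : F)) u) :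
    ExClosed K F := by
  classical
  intro n S hS a0 ha0
  let _ : Algebra K P := ((algebraMap K F).codRestrict P hKP).toAlgebra
  have hcoe : ∀ g : MvPolynomial (Fin m) K, ((aeval a g : P) : F) =
      aeval (fun i => (a i : F)) g := by
    intro g
    let ι : P →ₐ[K] F := { P.subtype with commutes' := fun c => rfl }
    change ι (aeval a g) = _
    rw [comp_aeval_apply]
    rfl
  have hgen' : ∀ x : P, ∃ u v : MvPolynomial (Fin m) K, constantCoeff v ≠ 0 ∧
      aeval a v * x = aeval a u := by
    intro x
    obtain ⟨u, v, hv, h⟩ := hgen x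
    refine ⟨u, v, hv, Subtype.ext ?_⟩
    rw [Subring.coe_mul, hcoe, hcoe, h]
  -- polynomials with nonzero constant term
  have hcc : ∀ g : MvPolynomial (Fin m) K, aeval a g - algebraMap K P (constantCoeff g) ∈
      maximalIdeal P := by
    intro g
    induction g using MvPolynomial.induction_on with
    | C c =>
      rw [aeval_C, constantCoeff_C, sub_self]
      exact zero_mem _
    | add p q hp hq =>
      rw [map_add, map_add, map_add, add_sub_add_comm]
      exact add_mem hp hq
    | mul_X p i hp =>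
      rw [map_mul, aeval_X, map_mul, constantCoeff_X, mul_zero, map_zero, sub_zero]
      exact Ideal.mul_mem_left _ _ (ham i)
  have hunit : ∀ g : MvPolynomial (Fin m) K, constantCoeff g ≠ 0 → IsUnit (aeval a g) := by
    intro g hg
    by_contra h
    have h3 : aeval a g ∈ maximalIdeal P := h
    have h4 : algebraMap K P (constantCoeff g) ∈ maximalIdeal P := by
      have h5 := sub_mem h3 (hcc g)
      rwa [sub_sub_cancel] at h5
    exact h4 ((isUnit_iff_ne_zero.2 hg).map (algebraMap K P))
  -- all elements of `F` are quotients of polynomials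
  have hfrac : ∀ w : F, ∃ nu q : MvPolynomial (Fin m) K,
      aeval (fun i => (a i : F)) q ≠ 0 ∧ w * aeval (fun i => (a i : F)) q =
        aeval (fun i => (a i : F)) nu := by
    intro w
    obtain ⟨x, hx, y, hy, hy0, rfl⟩ := hfr w
    obtain ⟨u, v, hv, hu⟩ := hgen ⟨x, hx⟩
    obtain ⟨u', v', hv', hu'⟩ := hgen ⟨y, hy⟩
    have hv0 : aeval (fun i => (a i : F)) v ≠ 0 := by
      rw [← hcoe]
      exact fun h => (hunit v hv).ne_zero (Subtype.ext h)
    have hv0' : aeval (fun i => (a i : F)) v' ≠ 0 := by
      rw [← hcoe]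
      exact fun h => (hunit v' hv').ne_zero (Subtype.ext h)
    refine ⟨u * v', u' * v, ?_, ?_⟩
    · rw [map_mul, ← hu']
      exact mul_ne_zero (mul_ne_zero hv0' hy0) hv0
    · rw [map_mul, map_mul, ← hu, ← hu']
      field_simp
  choose nu q hq hnu using fun i : Fin n => hfrac (a0 i)
  obtain ⟨J, V, U, hV, hVU, hI⟩ := halg K P m a ham hgen'
  choose G hG hGb using fun f : S => exists_clear (fun i => (a i : F)) a0 nu q hq hnu f
    (ha0 f f.2)
  have hG' : ∀ f : S, aeval a (G f) = 0 := fun f => Subtype.ext ((hcoe _).trans (hG f))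
  choose h hh hhG using fun f : S => hI (G f) (hG' f)
  have := hS.fintype
  -- the arc
  let Q : MvPolynomial (Fin m) K := ∏ i, q i
  have hQ : aeval a Q ≠ 0 := by
    intro h0
    have h3 : aeval (fun i => (a i : F)) Q = 0 := by
      rw [← hcoe, h0]
      rfl
    rw [map_prod] at h3
    exact Finset.prod_ne_zero_iff.2 (fun i _ => hq i) h3
  obtain ⟨φ, hφ⟩ := hom_of_regular h1 h2 K P hres (aeval a Q) hQ
  let α : Fin m → PowerSeries K := fun i => φ (a i)
  have hα : ∀ g : MvPolynomial (Fin m) K, aeval α g = φ (aeval a g) := fun g =>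
    (comp_aeval_apply a φ g).symm
  have hα0 : ∀ i, PowerSeries.constantCoeff (α i) = 0 := by
    intro i
    by_contra h0
    set c := PowerSeries.constantCoeff (α i) with hc
    have h3 : IsUnit (a i - algebraMap K P c) := by
      by_contra h4
      have h5 : a i - algebraMap K P c ∈ maximalIdeal P := h4
      have h6 : algebraMap K P c ∈ maximalIdeal P := by
        have h7 := sub_mem (ham i) h5
        rwa [sub_sub_cancel] at h7
      exact h6 ((isUnit_iff_ne_zero.2 h0).map (algebraMap K P))
    have h4 := h3.map (φ : P →ₐ[K] PowerSeries K)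
    have h5 := h4.map (PowerSeries.constantCoeff (R := K))
    rw [map_sub, AlgHom.commutes, map_sub] at h5
    have h6 : PowerSeries.constantCoeff (R := K) (algebraMap K (PowerSeries K) c) = c := by
      rw [PowerSeries.algebraMap_apply]
      simp
    rw [h6] at h5
    exact h5.ne_zero (sub_self _)
  have hαc : ∀ g : MvPolynomial (Fin m) K, PowerSeries.constantCoeff (aeval α g) =
      constantCoeff g := by
    intro g
    induction g using MvPolynomial.induction_on with
    | C c =>
      rw [aeval_C, constantCoeff_C, PowerSeries.algebraMap_apply]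
      simp
    | add p q hp hq => rw [map_add, map_add, map_add, hp, hq]
    | mul_X p i hp => rw [map_mul, aeval_X, map_mul, map_mul, hα0, constantCoeff_X, mul_zero,
        mul_zero]
  obtain ⟨b, hb, hbD⟩ := hfix O K m J V U (Q * ∏ f : S, h f) α hα0 hV (fun i hi => by
      rw [hα]
      change φ _ * φ _ = _
      rw [← map_mul, hVU i hi, map_sum]
      refine Finset.sum_congr rfl fun j _ => ?_
      rw [hα, map_mul]) (by
      rw [map_mul]
      refine mul_ne_zero ?_ ?_
      · rw [hα]
        exact hφ
      · rw [map_prod]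
        refine Finset.prod_ne_zero_iff.2 fun f _ => ?_
        intro h0
        have h3 := hαc (h f)
        rw [h0, map_zero] at h3
        exact hh f h3.symm)
  rw [map_mul, map_prod, map_prod] at hbD
  have hb1 : ∀ i, aeval b (q i) ≠ 0 := fun i =>
    Finset.prod_ne_zero_iff.1 (left_ne_zero_of_mul hbD) i (Finset.mem_univ i)
  have hb2 : ∀ f, aeval b (h f) ≠ 0 := fun f =>
    Finset.prod_ne_zero_iff.1 (right_ne_zero_of_mul hbD) f (Finset.mem_univ f)
  refine ⟨fun i => aeval b (nu i) / aeval b (q i), fun f hf => ?_⟩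
  refine hGb ⟨f, hf⟩ b hb1 ?_
  have h3 : aeval b (h ⟨f, hf⟩ * G ⟨f, hf⟩) = 0 := by
    have h4 : Ideal.span {f | ∃ i ∉ J, f = V i * X i - ∑ j ∈ J, U i j * X j} ≤
        RingHom.ker (aeval b : MvPolynomial (Fin m) K →ₐ[K] K) := by
      rw [Ideal.span_le]
      rintro _ ⟨i, hi, rfl⟩
      change aeval b _ = 0
      rw [map_sub, map_mul, aeval_X, hb i hi, map_sum, sub_eq_zero]
      refine Finset.sum_congr rfl fun j _ => ?_
      rw [map_mul, aeval_X]
    exact h4 (hhG ⟨f, hf⟩)
  rw [map_mul] at h3
  exact (mul_eq_zero.1 h3).resolve_left (hb2 _)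

end Pool.Agent.N102.CP
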