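import Pool.Agent.N102.CP.Cpt

/-!
Project CP (helper102): the rational place, and points from existential closedness.
-/

set_option autoImplicit false
set_option linter.unusedVariables false
set_option linter.unusedSectionVars false

universe u

open IsLocalRing Filter

namespace Pool.Agent.N102.CP

section place

variable {O K F : Type u} [CommRing O] [IsDomain O] [Field K] [Algebra O K] [IsFractionRing O K]
  [Field F] [Algebra O F] [Algebra K F] [IsScalarTower O K F]

/-- A valuation ring with a homomorphism to `O` gives a rational place. -/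
theorem exists_rational (B : Subring F) (Φ : B →+* O)
    (hΦ : ∀ a : O, ∃ h : algebraMap O F a ∈ B, Φ ⟨_, h⟩ = a) (hB : ∀ x : F, x ∈ B ∨ x⁻¹ ∈ B) :
    ∃ V : ValuationSubring F, (∀ a : K, algebraMap K F a ∈ V) ∧
      ∀ a ∈ V, ∃ c : K, V.valuation (a - algebraMap K F c) < 1 := by
  classical
  have hinj : Function.Injective (algebraMap O F) := by
    rw [IsScalarTower.algebraMap_eq O K F]
    exact (algebraMap K F).injective.comp (IsFractionRing.injective O K)
  have hne : ∀ b : B, Φ b ≠ 0 → (b : F) ≠ 0 := by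
    intro b hb h
    apply hb
    have h1 : b = 0 := Subtype.ext h
    rw [h1, map_zero]
  let V : ValuationSubring F :=
    { carrier := {x | ∃ a b : B, Φ b ≠ 0 ∧ x * b = a}
      mul_mem' := by
        rintro x y ⟨a, b, hb, hx⟩ ⟨a', b', hb', hy⟩
        refine ⟨a * a', b * b', ?_, ?_⟩
        · rw [map_mul]
          exact mul_ne_zero hb hb'
        · push_cast
          rw [← hx, ← hy]
          ring
      one_mem' := ⟨1, 1, by rw [map_one]; exact one_ne_zero, by simp⟩
      add_mem' := by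
        rintro x y ⟨a, b, hb, hx⟩ ⟨a', b', hb', hy⟩
        refine ⟨a * b' + a' * b, b * b', ?_, ?_⟩
        · rw [map_mul]
          exact mul_ne_zero hb hb'
        · push_cast
          rw [← hx, ← hy]
          ring
      zero_mem' := ⟨0, 1, by rw [map_one]; exact one_ne_zero, by simp⟩
      neg_mem' := by
        rintro x ⟨a, b, hb, hx⟩
        refine ⟨-a, b, hb, ?_⟩
        push_cast
        rw [← hx]
        ring
      mem_or_inv_mem' := by
        intro x
        rcases hB x with h | h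
        · exact Or.inl ⟨⟨x, h⟩, 1, by rw [map_one]; exact one_ne_zero, by simp⟩
        · exact Or.inr ⟨⟨x⁻¹, h⟩, 1, by rw [map_one]; exact one_ne_zero, by simp⟩ }
  have hV : ∀ x : F, x ∈ V ↔ ∃ a b : B, Φ b ≠ 0 ∧ x * b = a := fun x => Iff.rfl
  refine ⟨V, fun a => ?_, fun x hx => ?_⟩
  · obtain ⟨α, β, hβ, rfl⟩ := IsFractionRing.div_surjective (A := O) a
    have hβ0 : β ≠ 0 := nonZeroDivisors.ne_zero hβ
    obtain ⟨h1, h1'⟩ := hΦ α
    obtain ⟨h2, h2'⟩ := hΦ β
    refine (hV _).2 ⟨⟨_, h1⟩, ⟨_, h2⟩, ?_, ?_⟩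
    · rw [h2']
      exact hβ0
    · change algebraMap K F _ * algebraMap O F β = algebraMap O F α
      rw [map_div₀, ← IsScalarTower.algebraMap_apply, ← IsScalarTower.algebraMap_apply,
        div_mul_cancel₀]
      rw [Ne, map_eq_zero_iff _ hinj]
      exact hβ0
  · obtain ⟨a, b, hb, hab⟩ := (hV x).1 hx
    refine ⟨algebraMap O K (Φ a) / algebraMap O K (Φ b), ?_⟩
    set y : F := x - algebraMap K F (algebraMap O K (Φ a) / algebraMap O K (Φ b)) with hy
    obtain ⟨h1, h1'⟩ := hΦ (Φ a)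
    obtain ⟨h2, h2'⟩ := hΦ (Φ b)
    have hb0 : (b : F) ≠ 0 := hne b hb
    have hΦb : algebraMap O F (Φ b) ≠ 0 := by
      rw [Ne, map_eq_zero_iff _ hinj]
      exact hb
    let nn : B := a * ⟨_, h2⟩ - ⟨_, h1⟩ * b
    have hnn : Φ nn = 0 := by
      simp only [nn, map_sub, map_mul, h1', h2']
      ring
    have hyn : y * ((b : F) * algebraMap O F (Φ b)) = nn := by
      rw [hy, map_div₀, ← IsScalarTower.algebraMap_apply, ← IsScalarTower.algebraMap_apply]
      change _ = (a : F) * algebraMap O F (Φ b) - algebraMap O F (Φ a) * b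
      rw [← hab]
      field_simp
    have hyV : ∀ z ∈ V, y * z ≠ 1 := by
      intro z hz h
      obtain ⟨a', b', hb', hz'⟩ := (hV z).1 hz
      have h3 : (b' : F) * ((b : F) * algebraMap O F (Φ b)) = (a' : F) * nn := by
        rw [← hyn, ← hz']
        linear_combination (-(b' : F) * ((b : F) * algebraMap O F (Φ b))) * h
      have h4 : b' * (b * ⟨_, h2⟩) = a' * nn := Subtype.ext h3
      have h5 := congrArg Φ h4
      rw [map_mul, map_mul, map_mul, hnn, mul_zero, h2'] at h5
      exact (mul_ne_zero hb' (mul_ne_zero hb hb)) h5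
    by_contra hlt
    rw [not_lt] at hlt
    have hy0 : y ≠ 0 := by
      intro h
      rw [h, map_zero] at hlt
      exact absurd hlt (by simp)
    have h6 : y⁻¹ ∈ V := by
      rw [← ValuationSubring.valuation_le_one_iff, map_inv₀]
      exact inv_le_one_of_one_le₀ hlt
    exact hyV _ h6 (mul_inv_cancel₀ hy0)

end place

section points

variable {O K F : Type u} [CommRing O] [IsDomain O] [IsDiscreteValuationRing O] [Field K]
  [Algebra O K] [IsFractionRing O K] [Field F] [Algebra O F] [Algebra K F] [IsScalarTower O K F]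

/-- If `K` is existentially closed in `F`, then all charts have points. -/
theorem hasPoint_of_ec
    (H : ∀ (n : ℕ) (S : Set (MvPolynomial (Fin n) K)), S.Finite → ∀ a : Fin n → F,
      (∀ f ∈ S, MvPolynomial.aeval a f = 0) →
        ∃ b : Fin n → K, ∀ f ∈ S, MvPolynomial.aeval b f = 0)
    (s : ℕ) (f : Fin s → F) (hf : ∀ j, f j ≠ 0) (n : ℕ) : HasPoint O f n := by
  classical
  let a : Fin (s + s) → F := Fin.append f (fun j => (f j)⁻¹)
  let A : MvPolynomial (Fin (s + s)) K →ₐ[K] F := MvPolynomial.aeval a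
  obtain ⟨T, hT⟩ := (IsNoetherian.noetherian (RingHom.ker A) : (RingHom.ker A).FG)
  obtain ⟨b, hb⟩ := H (s + s) (T : Set _) T.finite_toSet a (fun g hg => by
    have h1 : g ∈ RingHom.ker A := by
      rw [← hT]
      exact Ideal.subset_span hg
    exact h1)
  have hker : ∀ g ∈ RingHom.ker A, MvPolynomial.aeval b g = 0 := by
    intro g hg
    rw [← hT] at hg
    refine Submodule.span_induction (p := fun g _ => MvPolynomial.aeval b g = 0)
      (fun g hg => hb g hg) (map_zero _) (fun g g' _ _ h h' => by rw [map_add, h, h', add_zero])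
      (fun c g _ h => by rw [smul_eq_mul, map_mul, h, mul_zero]) hg
  let ψ0 : (MvPolynomial (Fin (s + s)) K ⧸ RingHom.ker A) →ₐ[K] K :=
    Ideal.Quotient.liftₐ _ (MvPolynomial.aeval b) hker
  let ψ : A.range →ₐ[K] K := ψ0.comp (Ideal.quotientKerEquivRange A).symm.toAlgHom
  have hψ : ∀ g, ψ ⟨A g, ⟨g, rfl⟩⟩ = MvPolynomial.aeval b g := by
    intro g
    have h1 : (Ideal.quotientKerEquivRange A).symm ⟨A g, ⟨g, rfl⟩⟩ = Ideal.Quotient.mk _ g := by
      rw [AlgEquiv.symm_apply_eq]
      rfl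
    change ψ0 ((Ideal.quotientKerEquivRange A).symm ⟨A g, ⟨g, rfl⟩⟩) = _
    rw [h1]
    rfl
  -- the values
  have hx1 : ∀ j, A (MvPolynomial.X (Fin.castAdd s j)) = f j := fun j => by
    change MvPolynomial.aeval a _ = _
    rw [MvPolynomial.aeval_X]
    exact Fin.append_left _ _ _
  have hx2 : ∀ j, A (MvPolynomial.X (Fin.natAdd s j)) = (f j)⁻¹ := fun j => by
    change MvPolynomial.aeval a _ = _
    rw [MvPolynomial.aeval_X]
    exact Fin.append_right _ _ _
  have hbb : ∀ j, b (Fin.castAdd s j) * b (Fin.natAdd s j) = 1 := by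
    intro j
    have h1 := hker (MvPolynomial.X (Fin.castAdd s j) * MvPolynomial.X (Fin.natAdd s j) - 1) (by
      rw [RingHom.mem_ker, map_sub, map_mul, hx1, hx2, map_one, mul_inv_cancel₀ (hf j), sub_self])
    rw [map_sub, map_mul, MvPolynomial.aeval_X, MvPolynomial.aeval_X, map_one] at h1
    exact sub_eq_zero.1 h1
  have hinv : ∀ j, b (Fin.natAdd s j) = (b (Fin.castAdd s j))⁻¹ := fun j =>
    eq_inv_of_mul_eq_one_right (hbb j)
  let ε : Fin s → ℤˣ := fun j =>
    if IsLocalization.IsInteger O (b (Fin.castAdd s j)) then 1 else -1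
  have hmem : ∀ j, ∃ h : f j ^ (ε j : ℤ) ∈ A.range, ψ ⟨_, h⟩ ∈ (algebraMap O K).range := by
    intro j
    by_cases h : IsLocalization.IsInteger O (b (Fin.castAdd s j))
    · have h1 : f j ^ (ε j : ℤ) = A (MvPolynomial.X (Fin.castAdd s j)) := by
        rw [hx1]
        simp only [ε, if_pos h, Units.val_one, zpow_one]
      refine ⟨h1 ▸ ⟨_, rfl⟩, ?_⟩
      have h2 : (⟨f j ^ (ε j : ℤ), h1 ▸ ⟨_, rfl⟩⟩ : A.range) =
        ⟨A (MvPolynomial.X (Fin.castAdd s j)), ⟨_, rfl⟩⟩ := Subtype.ext h1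
      rw [h2, hψ, MvPolynomial.aeval_X]
      exact h
    · have h1 : f j ^ (ε j : ℤ) = A (MvPolynomial.X (Fin.natAdd s j)) := by
        rw [hx2]
        simp only [ε, if_neg h, Units.val_neg, Units.val_one, zpow_neg_one]
      refine ⟨h1 ▸ ⟨_, rfl⟩, ?_⟩
      have h2 : (⟨f j ^ (ε j : ℤ), h1 ▸ ⟨_, rfl⟩⟩ : A.range) =
        ⟨A (MvPolynomial.X (Fin.natAdd s j)), ⟨_, rfl⟩⟩ := Subtype.ext h1
      rw [h2, hψ, MvPolynomial.aeval_X, hinv]
      exact (ValuationRing.isInteger_or_isInteger O (b (Fin.castAdd s j))).resolve_left h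
  have hO : ∀ a : O, ∃ h : algebraMap O F a ∈ A.range, ψ ⟨_, h⟩ = algebraMap O K a := by
    intro a
    have h1 : algebraMap O F a = A (MvPolynomial.C (algebraMap O K a)) := by
      change _ = MvPolynomial.aeval _ _
      rw [MvPolynomial.aeval_C, ← IsScalarTower.algebraMap_apply]
    refine ⟨h1 ▸ ⟨_, rfl⟩, ?_⟩
    have h2 : (⟨algebraMap O F a, h1 ▸ ⟨_, rfl⟩⟩ : A.range) =
      ⟨A (MvPolynomial.C (algebraMap O K a)), ⟨_, rfl⟩⟩ := Subtype.ext h1
    rw [h2, hψ, MvPolynomial.aeval_C]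
    rfl
  -- the subring on which the values are in `O`
  let Q : Subring F := (((algebraMap O K).range.comap (ψ : A.range →+* K)).map
    (A.range.subtype : A.range →+* F))
  have hQ : chart O f ε ≤ Q := by
    refine Subring.closure_le.2 ?_
    rintro y (⟨a, rfl⟩ | ⟨j, rfl⟩)
    · obtain ⟨h, h'⟩ := hO a
      exact ⟨⟨_, h⟩, ⟨a, h'.symm⟩, rfl⟩
    · obtain ⟨h, h'⟩ := hmem j
      exact ⟨⟨_, h⟩, h', rfl⟩
  have hR : ∀ y : chart O f ε, ∃ h : (y : F) ∈ A.range, ψ ⟨_, h⟩ ∈ (algebraMap O K).range := by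
    intro y
    obtain ⟨z, hz, hzy⟩ := hQ y.2
    have h1 : (z : F) = y := hzy
    refine ⟨h1 ▸ z.2, ?_⟩
    have h2 : (⟨(y : F), h1 ▸ z.2⟩ : A.range) = z := Subtype.ext h1.symm
    rw [h2]
    exact hz
  let ψ1 : chart O f ε →+* K :=
    (ψ : A.range →+* K).comp ((chart O f ε).subtype.codRestrict A.range.toSubring
      (fun y => (hR y).1))
  let ψ2 : chart O f ε →+* (algebraMap O K).range := ψ1.codRestrict _ fun y => (hR y).2
  let e : O ≃+* (algebraMap O K).range := RingEquiv.ofBijective (algebraMap O K).rangeRestrict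
    ⟨fun a a' h => IsFractionRing.injective O K (congrArg Subtype.val h),
      (algebraMap O K).rangeRestrict_surjective⟩
  refine ⟨ε, (Ideal.Quotient.mk _).comp ((e.symm : (algebraMap O K).range →+* O).comp ψ2),
    fun a h => ?_⟩
  have h1 : e.symm (ψ2 ⟨_, h⟩) = a := by
    rw [RingEquiv.symm_apply_eq]
    apply Subtype.ext
    exact (hO a).2
  change Ideal.Quotient.mk _ (e.symm (ψ2 ⟨_, h⟩)) = _
  rw [h1]

end points

end Pool.Agent.N102.CP
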