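import Mathlib

/-!
Project CP (helper102): rational points over complete fields, statements.
-/

set_option autoImplicit false

universe u

open IsLocalRing MvPolynomial

namespace Pool.Agent.N102.CP

/-- Points over a complete field near a formal arc. -/
def S_FIX : Prop :=
  ∀ (O K : Type u) [CommRing O] [IsDomain O] [IsDiscreteValuationRing O]
    [IsAdicComplete (maximalIdeal O) O] [Field K] [Algebra O K] [IsFractionRing O K]
    (m : ℕ) (J : Finset (Fin m)) (V : Fin m → MvPolynomial (Fin m) K)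
    (U : Fin m → Fin m → MvPolynomial (Fin m) K) (D : MvPolynomial (Fin m) K)
    (α : Fin m → PowerSeries K),
    (∀ i, PowerSeries.constantCoeff (α i) = 0) →
    (∀ i ∉ J, constantCoeff (V i) ≠ 0) →
    (∀ i ∉ J, aeval α (V i) * α i = ∑ j ∈ J, aeval α (U i j) * α j) →
    aeval α D ≠ 0 →
    ∃ b : Fin m → K, (∀ i ∉ J, aeval b (V i) * b i = ∑ j ∈ J, aeval b (U i j) * b j) ∧
      aeval b D ≠ 0

/-- Local equations of a regular point. -/
def S_ALG : Prop :=
  ∀ (K P : Type u) [Field K] [CommRing P] [Algebra K P] [IsRegularLocalRing P]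
    (m : ℕ) (a : Fin m → P), (∀ i, a i ∈ maximalIdeal P) →
    (∀ x : P, ∃ u v : MvPolynomial (Fin m) K, constantCoeff v ≠ 0 ∧ aeval a v * x = aeval a u) →
    ∃ (J : Finset (Fin m)) (V : Fin m → MvPolynomial (Fin m) K)
      (U : Fin m → Fin m → MvPolynomial (Fin m) K),
      (∀ i ∉ J, constantCoeff (V i) ≠ 0) ∧
      (∀ i ∉ J, aeval a (V i) * a i = ∑ j ∈ J, aeval a (U i j) * a j) ∧
      ∀ g : MvPolynomial (Fin m) K, aeval a g = 0 → ∃ h : MvPolynomial (Fin m) K,
        constantCoeff h ≠ 0 ∧ h * g ∈ Ideal.span {f | ∃ i ∉ J, f = V i * X i -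
          ∑ j ∈ J, U i j * X j}

end Pool.Agent.N102.CP
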